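import Pool.Agent.Helper45.LinK.GoalsM
import Pool.Agent.Helper77.Lin.DKPR

/-!
# Packet DKPRK: the deck group acts properly
-/

open Complex Metric Set Filter Topology MeasureTheory
open scoped ContDiff ComplexConjugate ComplexOrder Manifold

namespace Pool.Agent.Helper58.LinK

open Pool.Agent.Helper95.Lin Pool.Agent.Helper45.LinK Pool.Agent.Helper16.Abund
  Pool.Agent.Helper92.Orb

universe u

theorem preconnected_tube {b k : ℕ} {D : Set (Cn b)} (hD : IsOpen D) (hc : IsPreconnected D) :
    PreconnectedSpace (TorTube hD k) := by
  have h1 : IsPreconnected ((base : Cn (b + k) → Cn b) ⁻¹' D) := by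
    have h2 : (base : Cn (b + k) → Cn b) ⁻¹' D =
        (fun p : Cn b × Cn k => (Fin.append p.1 p.2 : Cn (b + k))) '' (D ×ˢ univ) := by
      ext v
      constructor
      · intro hv
        refine ⟨(base v, fib v), ⟨hv, mem_univ _⟩, ?_⟩
        funext i
        refine Fin.addCases (fun i => ?_) (fun i => ?_) i
        · simp [base]
        · simp [fib]
      · rintro ⟨p, ⟨hp, -⟩, rfl⟩
        have : base (Fin.append p.1 p.2 : Cn (b + k)) = p.1 := by
          funext i
          simp [base]
        rw [Set.mem_preimage, this]
        exact hp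
    rw [h2]
    refine (hc.prod isPreconnected_univ).image _ (Continuous.continuousOn ?_)
    refine continuous_pi fun i => ?_
    refine Fin.addCases (fun i => ?_) (fun i => ?_) i
    · simp only [Fin.append_left]
      fun_prop
    · simp only [Fin.append_right]
      fun_prop
  exact isPreconnected_iff_preconnectedSpace.mp h1

theorem dkprk : S_DKPRK.{u} := by
  intro b k D hD hcon X _ _ P hc hP K hK
  haveI := preconnected_tube (k := k) hD hcon.isPreconnected
  haveI : LocallyConnectedSpace (TorTube hD k) := (tube D hD k).isOpen.locallyConnectedSpace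
  have h1 := Pool.Agent.Helper77.Lin.deck_proper hc hP hK
  have h2 := h1.preimage (f := fun γ : DeckK P => γ.1) Subtype.val_injective.injOn
  refine h2.subset ?_
  rintro γ ⟨y, hy, hs⟩
  exact ⟨γ.2, y, hy, hs⟩

end Pool.Agent.Helper58.LinK
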