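import Pool.Agent.Helper45.LinK.GoalsK

/-!
# Packet FIBCK
-/

open Complex Metric Set Filter Topology MeasureTheory
open scoped ContDiff ComplexConjugate ComplexOrder

namespace Pool.Agent.Helper58.LinK

open Pool.Agent.Helper95.Lin Pool.Agent.Helper45.LinK

theorem fibck (hF : S_FINMAP) : S_FIBCK := by
  classical
  intro b k D Γ _ g A β hL hdisc z hz
  obtain ⟨K, hK, hKc, R, hR⟩ := hL.coc
  obtain ⟨S, hS⟩ := hF hL.base hdisc (K ∪ {z}) (union_subset hK (singleton_subset_iff.mpr hz))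
    (hKc.union isCompact_singleton)
  refine ⟨∑ σ ∈ S, |‖A σ⁻¹ (g σ z)‖ * (R + ‖β σ z‖)|, fun w => ?_⟩
  obtain ⟨γ, hγ1, hγ2⟩ := hR z hz w
  obtain ⟨σ, hσ, hσγ⟩ := hS γ ⟨z, Or.inr rfl, Or.inl hγ1⟩
  have htriv : ∀ y ∈ D, g (σ⁻¹ * γ) y = y := fun y hy => by
    rw [hL.base.act.mul _ _ y hy, hσγ y hy, hL.base.act.inv_left _ hy]
  refine ⟨σ⁻¹ * γ, htriv, ?_⟩
  have e1 : A γ z = A σ z * A (σ⁻¹ * γ) z := by
    have := hL.a_mul σ (σ⁻¹ * γ) z hz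
    rw [htriv z hz, mul_inv_cancel_left] at this
    exact this
  have e2 : β γ z = A σ z (β (σ⁻¹ * γ) z) + β σ z := by
    have := hL.b_mul σ (σ⁻¹ * γ) z hz
    rw [htriv z hz, mul_inv_cancel_left] at this
    exact this
  have e0 : A σ⁻¹ (g σ z) * A σ z = 1 := by
    have := hL.a_mul σ⁻¹ σ z hz
    rw [inv_mul_cancel, hL.a_one z hz] at this
    exact this.symm
  have e3 : A (σ⁻¹ * γ) z w + β (σ⁻¹ * γ) z
      = A σ⁻¹ (g σ z) ((A γ z w + β γ z) - β σ z) := by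
    have h : A σ⁻¹ (g σ z) (A σ z (A (σ⁻¹ * γ) z w + β (σ⁻¹ * γ) z))
        = A (σ⁻¹ * γ) z w + β (σ⁻¹ * γ) z := by
      rw [← ContinuousLinearMap.mul_apply, e0, ContinuousLinearMap.one_apply]
    rw [← h, e1, e2, map_add (A σ z), ContinuousLinearMap.mul_apply]
    congr 1
    abel
  have h1 : ‖A (σ⁻¹ * γ) z w + β (σ⁻¹ * γ) z‖ ≤ ‖A σ⁻¹ (g σ z)‖ * (R + ‖β σ z‖) := by
    rw [e3]
    refine (ContinuousLinearMap.le_opNorm _ _).trans ?_
    exact mul_le_mul_of_nonneg_left ((norm_sub_le _ _).trans (add_le_add hγ2 le_rfl))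
      (norm_nonneg _)
  exact (h1.trans (le_abs_self _)).trans
    (Finset.single_le_sum (f := fun σ => |‖A σ⁻¹ (g σ z)‖ * (R + ‖β σ z‖)|)
      (fun _ _ => abs_nonneg _) hσ)

end Pool.Agent.Helper58.LinK
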