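import Pool.Agent.Helper57.LinK.FB
import Pool.Agent.Helper65.LinK.FN

/-!
# Packet FT: if the fibres are flat, the Christoffel form is holomorphic
-/

open Complex Metric Set Filter Topology MeasureTheory
open scoped ContDiff ComplexConjugate ComplexOrder Manifold

namespace Pool.Agent.Helper58.LinK

open Pool.Agent.Helper95.Lin Pool.Agent.Helper45.LinK Pool.Agent.Helper16.Abund
  Pool.Agent.Helper92.Orb Pool.Agent.Helper65.LinK Pool.Agent.Helper57.LinK

/-! ## The operator `∂̄` in one variable -/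

section oneVar

/-- Twice the derivative `∂/∂ζ̄`. -/
noncomputable def db (f : ℂ → ℂ) (ζ : ℂ) : ℂ := fderiv ℝ f ζ 1 + I * fderiv ℝ f ζ I

theorem db_holo {h : ℂ → ℂ} {ζ : ℂ} (hd : DifferentiableAt ℂ h ζ) : db h ζ = 0 := by
  unfold db
  rw [hd.fderiv_restrictScalars ℝ]
  have h1 : fderiv ℂ h ζ I = I * fderiv ℂ h ζ 1 := by
    have := (fderiv ℂ h ζ).map_smul I 1
    rwa [smul_eq_mul, mul_one, smul_eq_mul] at this
  simp only [ContinuousLinearMap.coe_restrictScalars']
  rw [h1, ← mul_assoc, I_mul_I]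
  ring

theorem db_mul {f g : ℂ → ℂ} {ζ : ℂ} (hf : DifferentiableAt ℝ f ζ) (hg : DifferentiableAt ℝ g ζ) :
    db (fun t => f t * g t) ζ = f ζ * db g ζ + db f ζ * g ζ := by
  unfold db
  rw [fderiv_fun_mul hf hg]
  simp only [_root_.add_apply, _root_.smul_apply, smul_eq_mul]
  ring

theorem db_sum {ι : Type} (s : Finset ι) {f : ι → ℂ → ℂ} {ζ : ℂ}
    (hf : ∀ i ∈ s, DifferentiableAt ℝ (f i) ζ) :
    db (fun t => ∑ i ∈ s, f i t) ζ = ∑ i ∈ s, db (f i) ζ := by
  unfold db
  rw [fderiv_fun_sum hf]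
  simp only [_root_.sum_apply, Finset.mul_sum, Finset.sum_add_distrib]

theorem db_comp {n : ℕ} {S : Cn n → ℂ} {v : ℂ → Cn n} {y : Cn n} {ζ : ℂ}
    (hS : DifferentiableAt ℝ S (v ζ)) (hv : HasDerivAt v y ζ) :
    DifferentiableAt ℝ (fun t => S (v t)) ζ ∧ db (fun t => S (v t)) ζ = dzb y S (v ζ) := by
  have h1 : HasFDerivAt v ((ContinuousLinearMap.toSpanSingleton ℂ y).restrictScalars ℝ) ζ :=
    hv.hasFDerivAt.restrictScalars ℝ
  have h2 : HasFDerivAt (fun t => S (v t))
      ((fderiv ℝ S (v ζ)).comp ((ContinuousLinearMap.toSpanSingleton ℂ y).restrictScalars ℝ)) ζ :=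
    hS.hasFDerivAt.comp ζ h1
  refine ⟨h2.differentiableAt, ?_⟩
  unfold db dzb
  rw [h2.fderiv]
  simp

end oneVar

/-! ## Linearity of the second fundamental form -/

section lin

variable {b k : ℕ}

/-- The hermitian form as a linear map in the first variable. -/
noncomputable def hermiL {n : ℕ} (A : Matrix (Fin n) (Fin n) ℂ) (η : Cn n) : Cn n →ₗ[ℂ] ℂ where
  toFun ξ := hermi A ξ η
  map_add' ξ ξ' := by
    unfold hermi
    simp only [Pi.add_apply, mul_add, add_mul, Finset.sum_add_distrib]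
  map_smul' c ξ := by
    unfold hermi
    simp only [Pi.smul_apply, smul_eq_mul, RingHom.id_apply, Finset.mul_sum]
    exact Finset.sum_congr rfl fun i _ => Finset.sum_congr rfl fun j _ => by ring

theorem hermiL_apply {n : ℕ} (A : Matrix (Fin n) (Fin n) ℂ) (ξ η : Cn n) :
    hermiL A η ξ = hermi A ξ η := rfl

/-- The inclusion of the vertical vectors. -/
noncomputable def vertL (b k : ℕ) : Cn k →L[ℂ] Cn (b + k) := LinearMap.toContinuousLinearMap
  { toFun := fun u => vert u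
    map_add' := by
      intro u u'
      funext i
      refine Fin.addCases (fun i => ?_) (fun i => ?_) i <;> simp [vert]
    map_smul' := by
      intro c u
      funext i
      refine Fin.addCases (fun i => ?_) (fun i => ?_) i <;> simp [vert] }

theorem vertL_apply (u : Cn k) : vertL b k u = vert u := rfl

theorem io_eq (z : Cn b) (w : Cn k) : (Fin.append z w : Cn (b + k)) = vertL b k w + Fin.append z 0 := by
  rw [vertL_apply]
  funext i
  refine Fin.addCases (fun i => ?_) (fun i => ?_) i <;> simp [vert]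

theorem base_io (z : Cn b) (w : Cn k) : base (Fin.append z w : Cn (b + k)) = z := by
  funext i
  simp [base]

theorem io_base_fib (v : Cn (b + k)) : Fin.append (base v) (fib v) = v := by
  funext i
  refine Fin.addCases (fun i => ?_) (fun i => ?_) i <;> simp [base, fib]

theorem hor_add_vert (η : Cn (b + k)) : η = hor (base η) + vert (fib η) := by
  funext i
  refine Fin.addCases (fun i => ?_) (fun i => ?_) i <;> simp [hor, vert, base, fib]

theorem basis_sum (u : Cn k) : u = ∑ p, u p • (Pi.single p (1 : ℂ) : Cn k) := by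
  funext i
  rw [Finset.sum_apply]
  simp [Pi.single_apply]

/-- A bilinear expression in coordinates. -/
theorem bil_sum {E : Type} [AddCommGroup E] [Module ℂ E] (B : Cn k →ₗ[ℂ] Cn k →ₗ[ℂ] E)
    (u u' : Cn k) :
    B u u' = ∑ p, ∑ q, (u p * u' q) • B (Pi.single p 1) (Pi.single q 1) := by
  conv_lhs => rw [basis_sum u, basis_sum u']
  simp only [map_sum, map_smul, LinearMap.sum_apply, LinearMap.smul_apply, Finset.smul_sum,
    smul_smul]
  rw [Finset.sum_comm]
  refine Finset.sum_congr rfl fun p _ => Finset.sum_congr rfl fun q _ => ?_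
  rw [mul_comm]

theorem sff_sum {H : Cn (b + k) → Matrix (Fin (b + k)) (Fin (b + k)) ℂ}
    {N : Cn (b + k) → Cn k →L[ℂ] CE k} {x : Cn (b + k)}
    (hd : ∀ i j, DifferentiableAt ℝ (fun y => H y i j) x) (u u' : Cn k) (η : Cn (b + k)) :
    sff H N x u u' η = ∑ p, ∑ q, (u p * u' q) * sff H N x (Pi.single p 1) (Pi.single q 1) η := by
  -- the first term
  let B₁ : Cn k →ₗ[ℂ] Cn k →ₗ[ℂ] ℂ := LinearMap.mk₂ ℂ
    (fun u u' => dz (vert u) (fun y => hermi (H y) (vert u') η) x)
    (fun u₁ u₂ u' => by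
      have := (dzL (fun y => hermi (H y) (vert u') η) x).map_add (vertL b k u₁) (vertL b k u₂)
      rw [← map_add] at this
      exact this)
    (fun c u u' => by
      have := (dzL (fun y => hermi (H y) (vert u') η) x).map_smul c (vertL b k u)
      rw [← map_smul] at this
      exact this)
    (fun u u₁ u₂ => by
      rw [dz_hermi hd, dz_hermi hd, dz_hermi hd]
      have := (hermiL (Matrix.of fun i j => dz (vert u) (fun y => H y i j) x) η).map_add
        (vertL b k u₁) (vertL b k u₂)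
      rw [← map_add] at this
      exact this)
    (fun c u u' => by
      rw [dz_hermi hd, dz_hermi hd]
      have := (hermiL (Matrix.of fun i j => dz (vert u) (fun y => H y i j) x) η).map_smul
        c (vertL b k u')
      rw [← map_smul] at this
      exact this)
  let B₂ : Cn k →ₗ[ℂ] Cn k →ₗ[ℂ] ℂ := LinearMap.mk₂ ℂ
    (fun u u' => hermiL (H x) η (vertL b k (N x u u')))
    (fun u₁ u₂ u' => by simp only [map_add, _root_.add_apply])
    (fun c u u' => by simp only [map_smul, _root_.smul_apply])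
    (fun u u₁ u₂ => by simp only [map_add])
    (fun c u u' => by simp only [map_smul])
  have h : ∀ u u', sff H N x u u' η = (B₁ - B₂) u u' := fun u u' => rfl
  rw [h, bil_sum (B₁ - B₂) u u']
  rfl

end lin

/-! ## The main argument -/

section main

variable {b k : ℕ} {D : Set (Cn b)} {H : Cn (b + k) → Matrix (Fin (b + k)) (Fin (b + k)) ℂ}
  {N : Cn (b + k) → Cn k →L[ℂ] CE k}

/-- The coefficients of the second fundamental form are smooth. -/
theorem sff_diff (hH : Met (tubeK D k) H) (hN : Chr D H N) {v : Cn (b + k)}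
    (hv : v ∈ tubeK D k) (u u' : Cn k) (η : Cn (b + k)) :
    DifferentiableAt ℝ (fun x => sff H N x u u' η) v := by
  have hM := hH.isOpen
  have hMv : tubeK D k ∈ 𝓝 v := hM.mem_nhds hv
  have hs : ∀ ξ ζ : Cn (b + k), ContDiffOn ℝ ∞ (fun x => hermi (H x) ξ ζ) (tubeK D k) := by
    intro ξ ζ
    unfold hermi
    exact ContDiffOn.sum fun i _ => ContDiffOn.sum fun j _ =>
      ((hH.smooth i j).mul contDiffOn_const).mul contDiffOn_const
  have hNat : ContDiffAt ℝ ∞ N v := hN.smooth.contDiffAt hMv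
  have hNd : DifferentiableAt ℝ N v := hNat.differentiableAt (by simp)
  let ev : (Cn k →L[ℂ] CE k) →L[ℂ] Cn k :=
    (ContinuousLinearMap.apply ℂ (Cn k) u').comp (ContinuousLinearMap.apply ℂ (CE k) u)
  have hNud' : DifferentiableAt ℝ (fun x => ev (N x)) v :=
    diff_clm (E := Cn k →L[ℂ] CE k) (G := Cn k) (L := ev) (f := N) (x := v) hNd
  have hNud : DifferentiableAt ℝ (fun x => N x u u') v := hNud'
  have hzd : DifferentiableAt ℝ (dz (vert u) (fun x => hermi (H x) (vert u') η)) v :=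
    ((dz_smooth hM (hs (vert u') η) (vert u)).contDiffAt hMv).differentiableAt (by simp)
  have hHd : ∀ i j, DifferentiableAt ℝ (fun x => H x i j) v := fun i j =>
    ((hH.smooth i j).contDiffAt hMv).differentiableAt (by simp)
  have hNd2 : DifferentiableAt ℝ (fun x => hermi (H x) (vert (N x u u')) η) v := by
    have hvd : ∀ i, DifferentiableAt ℝ (fun x => (vert (N x u u') : Cn (b + k)) i) v := by
      intro i
      refine Fin.addCases (fun i => ?_) (fun i => ?_) i
      · simp [vert]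
      · simp only [vert, Fin.append_right]
        exact (differentiableAt_pi.1 hNud) i
    unfold hermi
    exact DifferentiableAt.fun_sum fun i _ => DifferentiableAt.fun_sum fun j _ =>
      ((hHd i j).mul (hvd i)).mul_const _
  exact hzd.sub hNd2

/-- The `∂̄` derivative of `sff` along a holomorphic curve in a fibre. -/
theorem db_sff (hFB : S_FB) (hH : Met (tubeK D k) H) (hN : Chr D H N)
    (hol : ∀ z ∈ D, Differentiable ℂ fun w : Cn k => N (Fin.append z w)) {v : ℂ → Cn (b + k)}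
    (hv : ∀ ζ, v ζ ∈ tubeK D k) {y : ℂ → Cn k} (hvy : ∀ ζ, HasDerivAt v (vert (y ζ)) ζ)
    {U U' : ℂ → Cn k} (hU : Differentiable ℂ U) (hU' : Differentiable ℂ U') (η : Cn (b + k)) :
    (Differentiable ℝ fun ζ => sff H N (v ζ) (U ζ) (U' ζ) η) ∧
    ∀ ζ, db (fun ζ => sff H N (v ζ) (U ζ) (U' ζ) η) ζ =
      hermi (H (v ζ)) (vert (dzb η N (v ζ) (U ζ) (U' ζ))) (vert (y ζ)) := by
  have hHd : ∀ ζ, ∀ i j, DifferentiableAt ℝ (fun x => H x i j) (v ζ) := fun ζ i j =>
    ((hH.smooth i j).contDiffAt (hH.isOpen.mem_nhds (hv ζ))).differentiableAt (by simp)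
  have hexp : (fun ζ => sff H N (v ζ) (U ζ) (U' ζ) η) = fun ζ => ∑ p, ∑ q,
      (U ζ p * U' ζ q) * sff H N (v ζ) (Pi.single p 1) (Pi.single q 1) η := by
    funext ζ
    exact sff_sum (hHd ζ) _ _ _
  have hUp : ∀ p ζ, DifferentiableAt ℂ (fun ζ => U ζ p) ζ := fun p ζ =>
    (differentiableAt_pi.1 (hU ζ)) p
  have hUq : ∀ q ζ, DifferentiableAt ℂ (fun ζ => U' ζ q) ζ := fun q ζ =>
    (differentiableAt_pi.1 (hU' ζ)) q
  have hUU : ∀ p q ζ, DifferentiableAt ℂ (fun ζ => U ζ p * U' ζ q) ζ := fun p q ζ =>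
    (hUp p ζ).mul (hUq q ζ)
  have hS : ∀ p q ζ, DifferentiableAt ℝ
      (fun ζ => sff H N (v ζ) (Pi.single p 1) (Pi.single q 1) η) ζ ∧
      db (fun ζ => sff H N (v ζ) (Pi.single p 1) (Pi.single q 1) η) ζ =
        dzb (vert (y ζ)) (fun x => sff H N x (Pi.single p 1) (Pi.single q 1) η) (v ζ) :=
    fun p q ζ => db_comp (sff_diff hH hN (hv ζ) _ _ _) (hvy ζ)
  have hterm : ∀ p q ζ, DifferentiableAt ℝ (fun ζ => (U ζ p * U' ζ q) *
      sff H N (v ζ) (Pi.single p 1) (Pi.single q 1) η) ζ := fun p q ζ =>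
    ((hUU p q ζ).restrictScalars ℝ).mul (hS p q ζ).1
  rw [hexp]
  refine ⟨fun ζ => DifferentiableAt.fun_sum fun p _ => DifferentiableAt.fun_sum fun q _ =>
    hterm p q ζ, fun ζ => ?_⟩
  rw [db_sum _ fun p _ => DifferentiableAt.fun_sum fun q _ => hterm p q ζ]
  have e1 : ∀ p, db (fun ζ => ∑ q, (U ζ p * U' ζ q) *
      sff H N (v ζ) (Pi.single p 1) (Pi.single q 1) η) ζ = ∑ q, (U ζ p * U' ζ q) *
      hermi (H (v ζ)) (vert (dzb η N (v ζ) (Pi.single p 1) (Pi.single q 1))) (vert (y ζ)) := by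
    intro p
    rw [db_sum _ fun q _ => hterm p q ζ]
    refine Finset.sum_congr rfl fun q _ => ?_
    rw [db_mul ((hUU p q ζ).restrictScalars ℝ) (hS p q ζ).1, db_holo (hUU p q ζ), (hS p q ζ).2,
      hFB hH hN hol _ (hv ζ)]
    ring
  rw [Finset.sum_congr rfl fun p _ => e1 p]
  let B : Cn k →ₗ[ℂ] Cn k →ₗ[ℂ] ℂ := LinearMap.mk₂ ℂ
    (fun u u' => hermiL (H (v ζ)) (vert (y ζ)) (vertL b k (dzb η N (v ζ) u u')))
    (fun u₁ u₂ u' => by simp only [map_add, _root_.add_apply])
    (fun c u u' => by simp only [map_smul, _root_.smul_apply])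
    (fun u u₁ u₂ => by simp only [map_add])
    (fun c u u' => by simp only [map_smul])
  exact (bil_sum B (U ζ) (U' ζ)).symm

/-- The derivatives of inverse maps are inverse to each other. -/
theorem fderiv_inv_apply {Φ Φ' : Cn k → Cn k} (h : Differentiable ℂ Φ) (h' : Differentiable ℂ Φ')
    (hi : ∀ w, Φ' (Φ w) = w) (w a : Cn k) : fderiv ℂ Φ' (Φ w) (fderiv ℂ Φ w a) = a := by
  have h1 : HasFDerivAt (fun w => Φ' (Φ w)) ((fderiv ℂ Φ' (Φ w)).comp (fderiv ℂ Φ w)) w :=
    (h' (Φ w)).hasFDerivAt.comp w (h w).hasFDerivAt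
  have h2 : HasFDerivAt (fun w => Φ' (Φ w)) (ContinuousLinearMap.id ℂ (Cn k)) w := by
    have : (fun w => Φ' (Φ w)) = fun w => w := funext hi
    rw [this]
    exact hasFDerivAt_id w
  have h3 := h1.unique h2
  have h4 := congrArg (fun L : Cn k →L[ℂ] Cn k => L a) h3
  simpa using h4

theorem comp_diff {E : Type} [NormedAddCommGroup E] [NormedSpace ℂ E] {G : Cn k → E}
    {W : ℂ → Cn k} (hG : Differentiable ℂ G) (hW : Differentiable ℂ W) :
    Differentiable ℂ fun ζ => G (W ζ) := hG.comp hW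

theorem dzb_add_dir {n : ℕ} {E : Type} [NormedAddCommGroup E] [NormedSpace ℂ E] (f : Cn n → E)
    (x e e' : Cn n) (h : dzb e' f x = 0) : dzb (e + e') f x = dzb e f x := by
  have h1 : dzb (e + e') f x = dzb e f x + dzb e' f x := by
    unfold dzb
    rw [smul_add, map_add, map_add, smul_add]
    abel
  rw [h1, h, add_zero]

theorem ft_main (hFB : S_FB) (hFTH : S_FTH) (hFBD : S_FBD) (hLINE : S_LINE) {Γ : Type} [Group Γ]
    {F : Γ → Cn (b + k) → Cn (b + k)} (hD : Dom D) (hK : KAct (tubeK D k) F H) (hN : Chr D H N)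
    (hol : ∀ z ∈ D, Differentiable ℂ fun w : Cn k => N (Fin.append z w)) {z : Cn b} (hz : z ∈ D)
    {Φ Φ' : Cn k → Cn k} (hΦ : FlatF H z Φ Φ') (e : Cn b) (w u u' : Cn k) :
    dzb (hor e) N (Fin.append z w) u u' = 0 := by
  obtain ⟨hd, hd', hl, hr, hflat⟩ := hΦ
  have hH : Met (tubeK D k) H := ⟨hK.act.isOpen, hK.posDef, hK.smooth, hK.closed⟩
  have hz' : ∀ w : Cn k, (Fin.append z w : Cn (b + k)) ∈ tubeK D k := by
    intro w
    change base (Fin.append z w : Cn (b + k)) ∈ D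
    rw [base_io]
    exact hz
  -- the vanishing of `τ 0`
  have key : ∀ (ω₀ a a' c : Cn k), ∑ i, fderiv ℂ Φ (Φ' ω₀) (dzb (hor e) N
      (Fin.append z (Φ' ω₀)) (fderiv ℂ Φ' ω₀ a) (fderiv ℂ Φ' ω₀ a')) i * conj (c i) = 0 := by
    intro ω₀ a a' c
    set om : ℂ → Cn k := fun ζ => ω₀ + ζ • c with hom
    have hom' : ∀ ζ, HasDerivAt om c ζ := by
      intro ζ
      have h1 : HasDerivAt (fun ζ : ℂ => ζ • c) ((1 : ℂ) • c) ζ :=
        (hasDerivAt_id ζ).smul_const c
      rw [one_smul] at h1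
      exact h1.const_add ω₀
    have homd : Differentiable ℂ om := fun ζ => (hom' ζ).differentiableAt
    have hdd : Differentiable ℂ (fderiv ℂ Φ) := by
      have := holo_fderiv isOpen_univ hd.differentiableOn
      exact differentiableOn_univ.1 this
    have hdd' : Differentiable ℂ (fderiv ℂ Φ') := by
      have := holo_fderiv isOpen_univ hd'.differentiableOn
      exact differentiableOn_univ.1 this
    set W : ℂ → Cn k := fun ζ => Φ' (om ζ) with hW
    have hWd : ∀ ζ, HasDerivAt W (fderiv ℂ Φ' (om ζ) c) ζ := by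
      intro ζ
      exact (hd' (om ζ)).hasFDerivAt.comp_hasDerivAt ζ (hom' ζ)
    have hWdiff : Differentiable ℂ W := fun ζ => (hWd ζ).differentiableAt
    set U : ℂ → Cn k := fun ζ => fderiv ℂ Φ' (om ζ) a with hU
    set U' : ℂ → Cn k := fun ζ => fderiv ℂ Φ' (om ζ) a' with hU'
    have hUd : Differentiable ℂ U := (hdd'.comp homd).clm_apply (differentiable_const a)
    have hUd' : Differentiable ℂ U' := (hdd'.comp homd).clm_apply (differentiable_const a')
    set v : ℂ → Cn (b + k) := fun ζ => Fin.append z (W ζ) with hv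
    have hvm : ∀ ζ, v ζ ∈ tubeK D k := fun ζ => hz' (W ζ)
    have hvd : ∀ ζ, HasDerivAt v (vert (fderiv ℂ Φ' (om ζ) c)) ζ := by
      intro ζ
      have h1 : HasDerivAt (fun ζ => vertL b k (W ζ)) (vertL b k (fderiv ℂ Φ' (om ζ) c)) ζ :=
        (vertL b k).hasFDerivAt.comp_hasDerivAt ζ (hWd ζ)
      have h2 := h1.add_const (Fin.append z 0 : Cn (b + k))
      have h3 : (fun ζ => vertL b k (W ζ) + (Fin.append z 0 : Cn (b + k))) = v := by
        funext ζ
        exact (io_eq z (W ζ)).symm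
      rw [h3] at h2
      exact h2
    obtain ⟨hfd, hfb⟩ := db_sff hFB hH hN hol hvm (y := fun ζ => fderiv ℂ Φ' (om ζ) c) hvd
      hUd hUd' (hor e)
    -- `DΦ` and `DΦ'`
    have hinv : ∀ ζ (x : Cn k), fderiv ℂ Φ (W ζ) (fderiv ℂ Φ' (om ζ) x) = x := fun ζ x =>
      fderiv_inv_apply hd' hd hr (om ζ) x
    set τ : ℂ → ℂ := fun ζ => ∑ i, fderiv ℂ Φ (W ζ) (dzb (hor e) N (v ζ) (U ζ) (U' ζ)) i *
      conj (c i) with hτ
    have hτd : Differentiable ℂ τ := by
      have h1 : Differentiable ℂ fun ζ => dzb (hor e) N (v ζ) :=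
        comp_diff (E := Cn k →L[ℂ] CE k) (G := fun w => dzb (hor e) N (Fin.append z w))
          (hFTH hD.isOpen hN.smooth hol (hor e) z hz) hWdiff
      have h2 : Differentiable ℂ fun ζ => dzb (hor e) N (v ζ) (U ζ) (U' ζ) :=
        (h1.clm_apply hUd).clm_apply hUd'
      have h3 : Differentiable ℂ fun ζ =>
          fderiv ℂ Φ (W ζ) (dzb (hor e) N (v ζ) (U ζ) (U' ζ)) :=
        (hdd.comp hWdiff).clm_apply h2
      have h4 := differentiable_pi.1 h3
      exact Differentiable.fun_sum fun i _ => (h4 i).mul_const _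
    have hft : ∀ ζ, fderiv ℝ (fun ζ => sff H N (v ζ) (U ζ) (U' ζ) (hor e)) ζ 1 +
        I * fderiv ℝ (fun ζ => sff H N (v ζ) (U ζ) (U' ζ) (hor e)) ζ I = τ ζ := by
      intro ζ
      have h1 := hfb ζ
      rw [hflat] at h1
      simp only [hinv] at h1
      exact h1
    have hbd : ∃ C : ℝ, ∀ ζ, ‖sff H N (v ζ) (U ζ) (U' ζ) (hor e)‖ ≤ C := by
      obtain ⟨C, hC⟩ := hFBD hD hK hN z hz
      set Q : Cn k → ℝ := fun a => (∑ i, a i * conj (a i)).re with hQ
      have hq : ∀ ζ (x : Cn k), hermi (H (v ζ)) (vert (fderiv ℂ Φ' (om ζ) x))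
          (vert (fderiv ℂ Φ' (om ζ) x)) = ∑ i, x i * conj (x i) := by
        intro ζ x
        rw [hflat]
        simp only [hinv]
      refine ⟨C * Q a * Q a' * ‖e‖ ^ 2 + 1, fun ζ => ?_⟩
      have h1 := hC (W ζ) (U ζ) (U' ζ) e
      change ‖sff H N (v ζ) (U ζ) (U' ζ) (hor e)‖ ^ 2 ≤ C *
        (hermi (H (v ζ)) (vert (U ζ)) (vert (U ζ))).re *
        (hermi (H (v ζ)) (vert (U' ζ)) (vert (U' ζ))).re * ‖e‖ ^ 2 at h1
      rw [hq ζ a, hq ζ a'] at h1
      nlinarith [sq_nonneg (‖sff H N (v ζ) (U ζ) (U' ζ) (hor e)‖ - 1),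
        sq_nonneg (‖sff H N (v ζ) (U ζ) (U' ζ) (hor e)‖)]
    have h0 := hLINE _ τ hfd hτd hft hbd
    have hom0 : om 0 = ω₀ := by simp [hom]
    have hW0 : W 0 = Φ' ω₀ := by rw [hW]; simp only [hom0]
    simp only [hτ, hv, hU, hU', hom0, hW0] at h0
    exact h0
  -- conclusion
  have h1 := key (Φ w) (fderiv ℂ Φ w u) (fderiv ℂ Φ w u')
  rw [hl, fderiv_inv_apply hd hd' hl, fderiv_inv_apply hd hd' hl] at h1
  have h2 : fderiv ℂ Φ w (dzb (hor e) N (Fin.append z w) u u') = 0 := by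
    funext i
    have h3 := h1 (Pi.single i 1)
    rw [Finset.sum_eq_single i] at h3
    · simpa using h3
    · intro j _ hj
      rw [Pi.single_eq_of_ne hj]
      simp
    · intro h
      exact absurd (Finset.mem_univ i) h
  have h3 := fderiv_inv_apply hd hd' hl w (dzb (hor e) N (Fin.append z w) u u')
  rw [h2, map_zero] at h3
  exact h3.symm

theorem ft (hFH : S_FH) (hFB : S_FB) (hFTH : S_FTH) (hFBD : S_FBD) (hLINE : S_LINE)
    (hCRE : S_CRE) : S_FT := by
  intro b k D Γ _ F H N hD hK hFl hN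
  have hMet : Met (tubeK D k) H := ⟨hK.act.isOpen, hK.posDef, hK.smooth, hK.closed⟩
  have hM := hMet.isOpen
  have hol : ∀ z ∈ D, Differentiable ℂ fun w : Cn k => N (Fin.append z w) := by
    intro z hz
    obtain ⟨Φ, Φ', hΦ⟩ := hFl z hz
    exact (hFH hMet hN z hz Φ Φ' hΦ).2
  intro v hv
  have hNd : DifferentiableAt ℝ N v :=
    (hN.smooth.contDiffAt (hM.mem_nhds hv)).differentiableAt (by simp)
  refine ((hCRE N v).2 hNd fun η => ?_).differentiableWithinAt
  have e2 : dzb η N v = dzb (hor (base η)) N v := by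
    have := dzb_add_dir (E := Cn k →L[ℂ] CE k) N v (hor (base η)) (vert (fib η))
      (dzb_vert hCRE hM hN.smooth hol hv (fib η))
    rwa [← hor_add_vert η] at this
  rw [e2]
  obtain ⟨Φ, Φ', hΦ⟩ := hFl (base v) hv
  ext1 u
  ext1 u'
  have := ft_main hFB hFTH hFBD hLINE hD hK hN hol hv hΦ (base η) (fib v) u u'
  rw [io_base_fib] at this
  exact this

end main



end Pool.Agent.Helper58.LinK
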